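import Pool.Agent.Q122.VFlowProofs

set_option autoImplicit false

namespace Pool.Agent.Results.MP_12428a_co.RankTwoFourFlow

open Q122.VFlow

/-- Q1 of MP_12428a_co is true: if some orientation of a finite graph `G` carries an `S^2`-flow
whose balanced vectors span a rational space of dimension at most two, then `G` has a 4-flow. -/
theorem result : ∀ (V E : Type) [Fintype V] [DecidableEq V] [Fintype E] (tl hd : E → V)
    (φ : E → EuclideanSpace ℝ (Fin 3)), IsS2Flow tl hd φ → balRank tl hd φ ≤ 2 →
    ∃ f : E → ℤ, IsFlow tl hd f ∧ ∀ e, 0 < |f e| ∧ |f e| < 4 := by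
  classical
  intro V E _ _ _ tl hd φ hφ hr
  exact main tl hd φ hφ hr

end Pool.Agent.Results.MP_12428a_co.RankTwoFourFlow
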